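import Mathlib

open Finset Matrix

namespace Pool.Agent.Results.MP_51d21a_co.NeverPlusTwo

variable {n : Type*} [Fintype n] [DecidableEq n]

/-- The energy of a finite graph: sum of the absolute values of the eigenvalues of its adjacency
matrix, counted with multiplicity. -/
noncomputable def energy (G : SimpleGraph n) [DecidableRel G.Adj] : ℝ :=
  ∑ i, |(G.isHermitian_adjMatrix ℝ).eigenvalues i|

lemma exists_TP (M : Matrix n n ℝ) (hM : M.IsHermitian) :
    ∃ T P : Matrix n n ℝ, Tᵀ = T ∧ T * T = 1 ∧ Pᵀ = P ∧ T * M = P * P ∧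
      trace (P * P) = ∑ i, |hM.eigenvalues i| := by
  set Φ := Unitary.conjStarAlgAut ℝ _ hM.eigenvectorUnitary with hΦ
  have hMe : M = Φ (diagonal hM.eigenvalues) := by
    have h1 := hM.spectral_theorem
    have h2 : (RCLike.ofReal ∘ hM.eigenvalues : n → ℝ) = hM.eigenvalues := by
      funext i; simp
    rw [h2] at h1
    exact h1
  have hst : ∀ f : n → ℝ, (Φ (diagonal f))ᵀ = Φ (diagonal f) := by
    intro f
    have h1 : star (Φ (diagonal f)) = Φ (diagonal f) := by
      rw [← map_star, star_eq_conjTranspose, diagonal_conjTranspose]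
      simp
    rw [star_eq_conjTranspose, conjTranspose_eq_transpose_of_trivial] at h1
    exact h1
  have htr : ∀ f : n → ℝ, trace (Φ (diagonal f)) = ∑ i, f i := by
    intro f
    rw [hΦ, Unitary.conjStarAlgAut_apply, trace_mul_cycle]
    simp [trace_diagonal]
  refine ⟨Φ (diagonal (fun i => if 0 ≤ hM.eigenvalues i then 1 else -1)),
    Φ (diagonal (fun i => √|hM.eigenvalues i|)), hst _, ?_, hst _, ?_, ?_⟩
  · rw [← map_mul, diagonal_mul_diagonal]
    have : (diagonal (fun i => (if 0 ≤ hM.eigenvalues i then (1 : ℝ) else -1) *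
        (if 0 ≤ hM.eigenvalues i then (1 : ℝ) else -1)) : Matrix n n ℝ) = 1 := by
      rw [← diagonal_one]
      congr 1
      funext i
      split_ifs <;> norm_num
    rw [this, map_one]
  · refine (congrArg (fun Z => Φ (diagonal (fun i => if 0 ≤ hM.eigenvalues i then 1 else -1)) * Z)
      hMe).trans ?_
    rw [← map_mul, ← map_mul, diagonal_mul_diagonal, diagonal_mul_diagonal]
    congr 2
    funext i
    rw [Real.mul_self_sqrt (abs_nonneg _)]
    split_ifs with h
    · rw [abs_of_nonneg h, one_mul]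
    · rw [abs_of_neg (by linarith), neg_one_mul]
  · rw [← map_mul, diagonal_mul_diagonal, htr]
    apply sum_congr rfl
    intro i _
    rw [Real.mul_self_sqrt (abs_nonneg _)]

omit [DecidableEq n] in
lemma trace_sq (Y : Matrix n n ℝ) : trace (Yᵀ * Y) = ∑ i, ∑ j, Y j i ^ 2 := by
  simp [trace, mul_apply, sq]

lemma key (A S T P : Matrix n n ℝ) (hS : Sᵀ = S) (hS2 : S * S = 1) (hT : Tᵀ = T)
    (hT2 : T * T = 1) (hP : Pᵀ = P) (hTA : T * A = P * P) :
    trace (S * A) ≤ trace (P * P) ∧ (trace (S * A) = trace (P * P) → S * A = P * P) := by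
  set X := S * T with hX
  have hXP : X * (P * P) = S * A := by
    rw [← hTA, hX, mul_assoc, ← mul_assoc T, hT2, one_mul]
  set Y := (1 - X) * P with hY
  have hXX : Xᵀ * X = 1 := by
    rw [hX, transpose_mul, hS, hT, mul_assoc, ← mul_assoc S, hS2, one_mul, hT2]
  have h1 : Yᵀ * Y = 2 • (P * P) - P * X * P - (P * X * P)ᵀ := by
    have e1 : Yᵀ = P * (1 - Xᵀ) := by
      rw [hY, transpose_mul, hP, transpose_sub, transpose_one]
    have e2 : (P * X * P)ᵀ = P * Xᵀ * P := by
      rw [transpose_mul, transpose_mul, hP, mul_assoc]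
    have : P * (1 - Xᵀ) * ((1 - X) * P) = P * P - P * X * P - P * Xᵀ * P + P * (Xᵀ * X) * P := by
      noncomm_ring
    rw [e1, e2, this, hXX]
    noncomm_ring
  have h2 : trace (Yᵀ * Y) = 2 * (trace (P * P) - trace (S * A)) := by
    rw [h1, trace_sub, trace_sub, trace_transpose, trace_smul]
    have : trace (P * X * P) = trace (S * A) := by
      rw [← hXP, trace_mul_cycle, trace_mul_comm]
    rw [this]
    simp only [nsmul_eq_mul]
    push_cast
    ring
  have h3 : 0 ≤ trace (Yᵀ * Y) := by
    rw [trace_sq]; positivity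
  refine ⟨by linarith, ?_⟩
  intro heq
  have h4 : ∑ i, ∑ j, Y j i ^ 2 = 0 := by
    rw [← trace_sq, h2, heq]; ring
  have h5 : Y = 0 := by
    ext j i
    have h6 := (sum_eq_zero_iff_of_nonneg (fun i _ => by positivity)).mp h4 i (mem_univ _)
    have h7 := (sum_eq_zero_iff_of_nonneg (fun j _ => by positivity)).mp h6 j (mem_univ _)
    simpa using h7
  have h6 : Y * P = 0 := by rw [h5, zero_mul]
  rw [hY, mul_assoc, sub_mul, one_mul, hXP, sub_eq_zero] at h6
  exact h6.symm

/-- Deleting an edge changes the energy by strictly less than `+2`. -/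
theorem result (V : Type*) [Fintype V] [DecidableEq V] (G : SimpleGraph V) [DecidableRel G.Adj]
    (u v : V) (huv : G.Adj u v) [DecidableRel (G.deleteEdges {s(u, v)}).Adj] :
    energy (G.deleteEdges {s(u, v)}) < energy G + 2 := by
  set A := G.adjMatrix ℝ with hA
  set B := (G.deleteEdges {s(u, v)}).adjMatrix ℝ with hB
  obtain ⟨S, Q, hS, hS2, _, hSB, hQ⟩ := exists_TP B
    ((G.deleteEdges {s(u, v)}).isHermitian_adjMatrix ℝ)
  obtain ⟨T, P, hT, hT2, hP, hTA, hPt⟩ := exists_TP A (G.isHermitian_adjMatrix ℝ)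
  have e1 : energy (G.deleteEdges {s(u, v)}) = trace (S * B) := by
    rw [hSB, hQ]; rfl
  have e2 : energy G = trace (P * P) := by rw [hPt]; rfl
  have hne : u ≠ v := huv.ne
  set E : Matrix V V ℝ := Matrix.single u v 1 + Matrix.single v u 1 with hE
  have hBA : B = A - E := by
    ext a b
    rw [hB, hA, hE]
    simp only [SimpleGraph.adjMatrix_apply, Matrix.sub_apply, Matrix.add_apply, Matrix.single_apply,
      SimpleGraph.deleteEdges_adj, Set.mem_singleton_iff, Sym2.eq_iff]
    by_cases h1 : a = u ∧ b = v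
    · obtain ⟨rfl, rfl⟩ := h1
      have : ¬ (b = a ∧ a = b) := fun h => hne h.2
      simp [huv, this]
    · by_cases h2 : a = v ∧ b = u
      · obtain ⟨rfl, rfl⟩ := h2
        have : ¬ (b = a ∧ a = b) := fun h => hne h.1
        simp [huv.symm, this]
      · have h1' : ¬ (u = a ∧ v = b) := fun h => h1 ⟨h.1.symm, h.2.symm⟩
        have h2' : ¬ (v = a ∧ u = b) := fun h => h2 ⟨h.1.symm, h.2.symm⟩
        simp [h1, h2, h1', h2']
  have hSE : trace (S * E) = 2 * S u v := by
    rw [hE, mul_add, trace_add]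
    have h1 : trace (S * Matrix.single u v (1 : ℝ)) = S v u := by
      simp [trace_mul_single]
    have h2 : trace (S * Matrix.single v u (1 : ℝ)) = S u v := by
      simp [trace_mul_single]
    rw [h1, h2]
    have h3 : S v u = S u v := by
      conv_lhs => rw [← hS]
      rfl
    rw [h3]; ring
  have hrow : ∑ w, S u w ^ 2 = 1 := by
    have h1 : (S * S) u u = 1 := by rw [hS2]; simp
    rw [mul_apply] at h1
    rw [← h1]
    apply sum_congr rfl
    intro w _
    have h3 : S w u = S u w := by
      conv_lhs => rw [← hS]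
      rfl
    rw [h3, sq]
  have hle : S u v ^ 2 ≤ 1 := by
    rw [← hrow]
    exact single_le_sum (f := fun w => S u w ^ 2) (fun w _ => sq_nonneg _) (mem_univ v)
  have hge : -1 ≤ S u v := by nlinarith
  obtain ⟨k1, k2⟩ := key A S T P hS hS2 hT hT2 hP hTA
  have htot : trace (S * B) = trace (S * A) - 2 * S u v := by
    rw [hBA, mul_sub, trace_sub, hSE]
  rw [e1, e2, htot]
  by_contra hcon
  push Not at hcon
  have h1 : S u v = -1 := by linarith
  have h2 : trace (S * A) = trace (P * P) := by linarith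
  have h3 := k2 h2
  have h4 : (S * A) u u = -1 := by
    rw [mul_apply, sum_eq_single v]
    · rw [h1, hA, SimpleGraph.adjMatrix_apply, if_pos huv.symm]; ring
    · intro w _ hw
      have h5 : S u w = 0 := by
        have h6 : S u v ^ 2 + ∑ w ∈ univ.erase v, S u w ^ 2 = ∑ w, S u w ^ 2 :=
          Finset.add_sum_erase univ (fun w => S u w ^ 2) (mem_univ v)
        rw [hrow, h1] at h6
        have h7 : ∑ w ∈ univ.erase v, S u w ^ 2 = 0 := by linarith
        have h8 := (sum_eq_zero_iff_of_nonneg (fun i _ => by positivity)).mp h7 w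
          (mem_erase.mpr ⟨hw, mem_univ _⟩)
        simpa using h8
      rw [h5, zero_mul]
    · intro h; exact absurd (mem_univ _) h
  rw [h3, mul_apply] at h4
  have h5 : 0 ≤ ∑ w, P u w * P w u := by
    apply sum_nonneg
    intro w _
    have h6 : P w u = P u w := by
      conv_lhs => rw [← hP]
      rfl
    rw [h6]
    exact mul_self_nonneg _
  linarith

end Pool.Agent.Results.MP_51d21a_co.NeverPlusTwo
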